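import Pool.Agent.H38R2.CG.TB3a

/-! # TB3c: bound for the part at the primes dividing Q -/

set_option autoImplicit false

namespace Run7.h834.CG

open Finset Pool.Agent.H38R2.CG Pool.Agent.H38R2.CG.TB3ah

lemma pp_unit {p e n : ℕ} (hp : p.Prime) (hn : 1 ≤ n) (hpn : ¬ p ∣ n) :
    R ((p ^ e) ^ 2) (4 * n) ≤ (if p = 2 then 4 else 1) * 2 := by
  obtain ⟨m, g, hg, hm⟩ := Nat.sq_mul_squarefree n
  have hg1 : 1 ≤ g := by
    rcases Nat.eq_zero_or_pos g with h | h
    · rw [h] at hg; simp at hg; omega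
    · exact h
  have h := pp_bound p e (2 * g) m hp (by omega) hm
  have h3 : (2 * g) ^ 2 * m = 4 * n := by rw [← hg]; ring
  rw [h3] at h
  refine h.trans ?_
  have hpg : ¬ p ∣ g := fun h => hpn (by rw [← hg]; exact Dvd.dvd.mul_right (dvd_pow h two_ne_zero) _)
  have hcg : Nat.Coprime g (p ^ e) :=
    Nat.Coprime.pow_right _ ((Nat.Prime.coprime_iff_not_dvd hp).2 hpg).symm
  by_cases hp2 : p = 2
  · rw [if_pos hp2, if_pos hp2]
    have h1 : Nat.gcd (2 * g) (p ^ e) = Nat.gcd 2 (p ^ e) := Nat.Coprime.gcd_mul_right_cancel 2 hcg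
    rw [h1]
    have h2 : Nat.gcd 2 (p ^ e) ≤ 2 := Nat.gcd_le_left _ (by norm_num)
    omega
  · rw [if_neg hp2, if_neg hp2]
    have h1 : Nat.gcd (2 * g) (p ^ e) = Nat.gcd 2 (p ^ e) := Nat.Coprime.gcd_mul_right_cancel 2 hcg
    have h2 : Nat.gcd 2 (p ^ e) = 1 := Nat.Coprime.pow_right _
      (((Nat.coprime_primes Nat.prime_two hp).2 (Ne.symm hp2)))
    rw [h1, h2]

lemma unit_bound {n : ℕ} (hn : 1 ≤ n) (w : ℕ) :
    1 ≤ w → w.Coprime n → R (w ^ 2) (4 * n) ≤ (if 2 ∣ w then 4 else 1) * 2 ^ w.primeFactors.card := by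
  induction w using Nat.recOnPosPrimePosCoprime with
  | prime_pow p k hp hk =>
    intro _ hc
    have hpn : ¬ p ∣ n := by
      intro h
      have := Nat.eq_one_of_dvd_coprimes hc (dvd_pow_self p hk.ne') h
      exact hp.one_lt.ne' this
    refine (pp_unit (e := k) hp hn hpn).trans ?_
    rw [Nat.primeFactors_prime_pow hk.ne' hp, Finset.card_singleton, pow_one]
    by_cases hp2 : p = 2
    · subst hp2
      rw [if_pos rfl, if_pos (dvd_pow_self 2 hk.ne')]
    · have h2 : ¬ 2 ∣ p ^ k := by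
        intro h
        exact hp2 ((Nat.prime_dvd_prime_iff_eq Nat.prime_two hp).1
          (Nat.prime_two.dvd_of_dvd_pow h)).symm
      rw [if_neg hp2, if_neg h2]
  | zero => intro h; omega
  | one =>
    intro _ _
    have : R (1 ^ 2) (4 * n) ≤ 1 := by
      unfold R
      refine (Finset.card_filter_le _ _).trans ?_
      simp
    simpa using this
  | coprime a b ha hb hab iha ihb =>
    intro _ hc
    rw [mul_pow]
    refine (R_mul _ (Nat.Coprime.pow 2 2 hab)).trans ?_
    refine (Nat.mul_le_mul (iha (by omega) (Nat.Coprime.coprime_mul_right hc))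
      (ihb (by omega) (Nat.Coprime.coprime_mul_left hc))).trans ?_
    rw [hab.primeFactors_mul, Finset.card_union_of_disjoint hab.disjoint_primeFactors, pow_add]
    by_cases h2a : 2 ∣ a
    · have h2b : ¬ 2 ∣ b := by
        intro h
        have := Nat.dvd_gcd h2a h
        rw [hab.gcd_eq_one] at this
        omega
      rw [if_pos h2a, if_neg h2b, if_pos (Dvd.dvd.mul_right h2a b)]
      apply le_of_eq; ring
    · by_cases h2b : 2 ∣ b
      · rw [if_neg h2a, if_pos h2b, if_pos (Dvd.dvd.mul_left h2b a)]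
        apply le_of_eq; ring
      · have h2 : ¬ 2 ∣ a * b := by
          intro h
          rcases (Nat.prime_two.dvd_mul).1 h with h | h
          · exact h2a h
          · exact h2b h
        rw [if_neg h2a, if_neg h2b, if_neg h2]
        apply le_of_eq; ring

lemma prime_dvd_Qz {z p : ℕ} (hp : p.Prime) (h : p ∣ Qz z) : p = 2 ∨ p ∈ (Icc 3 z).filter Nat.Prime := by
  unfold Qz at h
  rcases (hp.dvd_mul).1 h with h | h
  · left
    have : p ∣ 2 ^ 4 := by simpa using h
    exact (Nat.prime_dvd_prime_iff_eq hp Nat.prime_two).1 (hp.dvd_of_dvd_pow this)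
  · right
    obtain ⟨l, hl, hpl⟩ := (Prime.dvd_finsetProd_iff hp.prime _).1 h
    have hl' := (mem_filter.1 hl).2
    have := (Nat.prime_dvd_prime_iff_eq hp hl').1 (hp.dvd_of_dvd_pow hpl)
    rw [this]; exact hl

lemma qpart_pos (z : ℕ) {v : ℕ} (hv : 1 ≤ v) : 1 ≤ qpart z v := by
  unfold qpart
  exact Nat.one_le_iff_ne_zero.2 (Finset.prod_ne_zero_iff.2 fun p hp =>
    pow_ne_zero _ (Nat.prime_of_mem_primeFactors (mem_filter.1 hp).1).ne_zero)

lemma qpart_dvd (z : ℕ) {v : ℕ} (hv : 1 ≤ v) : qpart z v ∣ v := by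
  unfold qpart
  conv_rhs => rw [← Nat.prod_factorization_pow_eq_self (by omega : v ≠ 0)]
  rw [Finsupp.prod, Nat.support_factorization]
  exact Finset.prod_dvd_prod_of_subset _ _ _ (filter_subset _ _)

lemma qpart_prime {z v p : ℕ} (hp : p.Prime) (h : p ∣ qpart z v) : p ∣ Qz z := by
  unfold qpart at h
  obtain ⟨q, hq, hpq⟩ := (Prime.dvd_finsetProd_iff hp.prime _).1 h
  have hq' := mem_filter.1 hq
  have := (Nat.prime_dvd_prime_iff_eq hp (Nat.prime_of_mem_primeFactors hq'.1)).1
    (hp.dvd_of_dvd_pow hpq)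
  rw [this]; exact hq'.2

lemma rhoQ_le (z r n v : ℕ) (hv : 1 ≤ v) :
    rhoQ z r n v ≤ Qz z * R ((qpart z v) ^ 2) (4 * n) := by
  classical
  unfold rhoQ R
  rw [← Finset.card_range (Qz z), ← Finset.card_product, Finset.card_range]
  have hv2 : 0 < (qpart z v) ^ 2 := pow_pos (qpart_pos z hv) 2
  apply Finset.card_le_card_of_injOn (fun u => (u / (qpart z v) ^ 2, u % (qpart z v) ^ 2))
  · intro u hu
    simp only [Finset.coe_filter, Finset.mem_range, Set.mem_ofPred_eq] at hu
    simp only [Finset.coe_product, Finset.coe_range, Finset.coe_filter, Finset.mem_range,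
      Set.mem_prod, Set.mem_Iio, Set.mem_ofPred_eq]
    refine ⟨Nat.div_lt_of_lt_mul (by rw [mul_comm]; exact hu.1), Nat.mod_lt _ hv2, ?_⟩
    have h1 : u ^ 2 ≡ 4 * n + r * v ^ 2 [MOD (qpart z v) ^ 2] := hu.2.of_dvd (Dvd.intro_left _ rfl)
    have h2 : 4 * n + r * v ^ 2 ≡ 4 * n [MOD (qpart z v) ^ 2] := by
      have : r * v ^ 2 ≡ 0 [MOD (qpart z v) ^ 2] := (Nat.modEq_zero_iff_dvd).2
        (Dvd.dvd.mul_left (pow_dvd_pow_of_dvd (qpart_dvd z hv) 2) _)
      simpa using (Nat.ModEq.refl (4 * n)).add this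
    exact ((Nat.mod_modEq u _).pow 2).trans (h1.trans h2)
  · intro u hu w hw huw
    simp only [Prod.mk.injEq] at huw
    rw [← Nat.div_add_mod u ((qpart z v) ^ 2), ← Nat.div_add_mod w ((qpart z v) ^ 2), huw.1, huw.2]

/-- P_TB3c: number of roots at the primes dividing Q. -/
theorem T_TB3c : P_TB3c := by
  classical
  intro z r n v hv hc
  have hn : 1 ≤ n := by
    rcases Nat.eq_zero_or_pos n with h | h
    · rw [h, Nat.coprime_zero_left] at hc
      unfold Qz at hc
      omega
    · exact h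
  have hcw : (qpart z v).Coprime n := by
    refine Nat.Coprime.symm (Nat.coprime_of_dvd fun p hp h1 h2 => ?_)
    exact hp.one_lt.ne' (Nat.eq_one_of_dvd_coprimes hc h1 (qpart_prime hp h2))
  have hcard : (qpart z v).primeFactors.card ≤ z + 1 := by
    have hsub : (qpart z v).primeFactors ⊆ insert 2 ((Icc 3 z).filter Nat.Prime) := by
      intro p hp
      have hp' := Nat.prime_of_mem_primeFactors hp
      rcases prime_dvd_Qz hp' (qpart_prime hp' (Nat.dvd_of_mem_primeFactors hp)) with h | h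
      · exact mem_insert.2 (Or.inl h)
      · exact mem_insert.2 (Or.inr h)
    refine (card_le_card hsub).trans ((card_insert_le _ _).trans ?_)
    have h1 : ((Icc 3 z).filter Nat.Prime).card ≤ (Icc 3 z).card := card_filter_le _ _
    rw [Nat.card_Icc] at h1
    omega
  refine (rhoQ_le z r n v hv).trans ?_
  rw [mul_assoc]
  refine Nat.mul_le_mul_left _ ((unit_bound hn _ (qpart_pos z hv) hcw).trans ?_)
  have h4 : (if 2 ∣ qpart z v then 4 else 1) ≤ 4 := by split_ifs <;> omega
  calc (if 2 ∣ qpart z v then 4 else 1) * 2 ^ (qpart z v).primeFactors.card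
      ≤ 4 * 2 ^ (z + 1) := Nat.mul_le_mul h4 (Nat.pow_le_pow_right (by norm_num) hcard)
    _ = 8 * 2 ^ z := by ring

end Run7.h834.CG
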