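import Pool.Agent.Run7.h834.CG.TB6bc
import Pool.Agent.Run7.h834.CG.TB3c

/-! # TB6a: mean of rhoQ over n coprime to Q -/

set_option autoImplicit false

namespace Run7.h834.CG

open Finset Pool.Agent.H38R2.CG

lemma sum_periodic {q : ℕ} (h : ℕ → ℝ) (hper : ∀ v, h v = h (v % q)) (K : ℕ) :
    ∑ v ∈ range (K * q), h v = K * ∑ v ∈ range q, h v := by
  induction K with
  | zero => simp
  | succ K ih =>
    rw [show (K + 1) * q = K * q + q by ring, sum_range_add, ih]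
    have : ∀ i ∈ range q, h (K * q + i) = h i := by
      intro i _
      rw [hper, hper i]
      congr 1
      rw [mul_comm, Nat.mul_add_mod]
    rw [sum_congr rfl this]
    push_cast; ring

/-- the local indicator -/
noncomputable def Fm (r v m u n : ℕ) : ℝ := if n.Coprime m ∧ u ^ 2 ≡ 4 * n + r * v ^ 2 [MOD m] then 1 else 0

noncomputable def Nm (r v m : ℕ) : ℝ := ∑ u ∈ range m, ∑ n ∈ range m, Fm r v m u n

lemma Fm_u (r v m u n : ℕ) : Fm r v m u n = Fm r v m (u % m) n := by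
  unfold Fm
  have : (u % m) ^ 2 ≡ 4 * n + r * v ^ 2 [MOD m] ↔ u ^ 2 ≡ 4 * n + r * v ^ 2 [MOD m] := by
    have h := (Nat.mod_modEq u m).pow 2
    exact ⟨fun h1 => h.symm.trans h1, fun h1 => h.trans h1⟩
  simp only [this]

lemma Fm_n (r v m u n : ℕ) : Fm r v m u n = Fm r v m u (n % m) := by
  unfold Fm
  have h1 : (n % m).Coprime m ↔ n.Coprime m := by
    unfold Nat.Coprime
    rw [← Nat.gcd_rec, Nat.gcd_comm]
  have h2 : u ^ 2 ≡ 4 * (n % m) + r * v ^ 2 [MOD m] ↔ u ^ 2 ≡ 4 * n + r * v ^ 2 [MOD m] := by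
    have h : 4 * (n % m) + r * v ^ 2 ≡ 4 * n + r * v ^ 2 [MOD m] :=
      ((Nat.mod_modEq n m).mul_left 4).add_right _
    exact ⟨fun h1 => h1.trans h, fun h1 => h1.trans h.symm⟩
  simp only [h1, h2]

lemma Fm_mul {a b : ℕ} (hab : a.Coprime b) (r v u n : ℕ) :
    Fm r v (a * b) u n = Fm r v a u n * Fm r v b u n := by
  unfold Fm
  rw [ite_zero_mul_ite_zero, mul_one]
  have : (n.Coprime (a * b) ∧ u ^ 2 ≡ 4 * n + r * v ^ 2 [MOD a * b]) ↔
      ((n.Coprime a ∧ u ^ 2 ≡ 4 * n + r * v ^ 2 [MOD a]) ∧ n.Coprime b ∧ u ^ 2 ≡ 4 * n + r * v ^ 2 [MOD b]) := by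
    rw [Nat.coprime_mul_iff_right, ← Nat.modEq_and_modEq_iff_modEq_mul hab]
    tauto
  simp only [this]

lemma Nm_mul {a b : ℕ} (hab : a.Coprime b) (ha : 0 < a) (hb : 0 < b) (r v : ℕ) :
    Nm r v (a * b) = Nm r v a * Nm r v b := by
  unfold Nm
  rw [← crt_sum hab ha hb (fun u => ∑ n ∈ range a, Fm r v a u n) (fun u => ∑ n ∈ range b, Fm r v b u n)]
  · refine sum_congr rfl fun u _ => ?_
    rw [← crt_sum hab ha hb (fun n => Fm r v a u n) (fun n => Fm r v b u n) (fun n => Fm_n r v a u n)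
      (fun n => Fm_n r v b u n)]
    exact sum_congr rfl fun n _ => Fm_mul hab r v u n
  · intro u
    exact sum_congr rfl fun n _ => Fm_u r v a u n
  · intro u
    exact sum_congr rfl fun n _ => Fm_u r v b u n

/-- the number of solutions of a congruence with invertible coefficient -/
lemma exists_unique_lin {m : ℕ} (hm : 0 < m) {c : ℤ} (hc : IsCoprime c (m : ℤ)) (d : ℤ) :
    ∃ n0 : ℕ, n0 < m ∧ ∀ n : ℕ, n < m → ((m : ℤ) ∣ c * n - d ↔ n = n0) := by
  obtain ⟨x, y, hxy⟩ := hc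
  have hmz : (0 : ℤ) < m := by exact_mod_cast hm
  refine ⟨((x * d) % m).toNat, ?_, fun n hn => ?_⟩
  · have h1 := Int.emod_nonneg (x * d) hmz.ne'
    have h2 := Int.emod_lt_of_pos (x * d) hmz
    omega
  · have h1 := Int.emod_nonneg (x * d) hmz.ne'
    have h2 := Int.emod_lt_of_pos (x * d) hmz
    have h3 : (((x * d) % m).toNat : ℤ) = (x * d) % m := Int.toNat_of_nonneg h1
    constructor
    · intro h
      have h4 : (m : ℤ) ∣ (n : ℤ) - x * d := by
        have h5 : (n : ℤ) - x * d = x * (c * n - d) + m * (y * n) := by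
          linear_combination (-(n:ℤ)) * hxy
        rw [h5]
        exact dvd_add (Dvd.dvd.mul_left h _) (dvd_mul_right _ _)
      have h6 : (n : ℤ) % m = (x * d) % m :=
        Int.emod_eq_emod_iff_emod_sub_eq_zero.2 (Int.emod_eq_zero_of_dvd h4)
      have h7 : (n : ℤ) % m = n := Int.emod_eq_of_lt (by positivity) (by exact_mod_cast hn)
      have : (n : ℤ) = (((x * d) % m).toNat : ℤ) := by rw [h3, ← h6, h7]
      exact_mod_cast this
    · intro h
      have h4 : (n : ℤ) = (x * d) % m := by rw [h, h3]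
      have h5 : (x * d) % m = x * d - m * (x * d / m) := by
        have := Int.emod_add_mul_ediv (x * d) m
        linarith
      rw [h4, h5]
      refine ⟨-(y * d) - c * (x * d / m), ?_⟩
      linear_combination d * hxy

lemma modEq_iff_int (r v m u n : ℕ) : u ^ 2 ≡ 4 * n + r * v ^ 2 [MOD m] ↔
    (m : ℤ) ∣ 4 * n - ((u:ℤ) ^ 2 - r * (v:ℤ) ^ 2) := by
  rw [Nat.modEq_iff_dvd]
  push_cast
  rw [show (4 * (n:ℤ) + r * (v:ℤ) ^ 2 - (u:ℤ) ^ 2) = 4 * n - ((u:ℤ) ^ 2 - r * (v:ℤ) ^ 2) by ring]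

lemma Fm_int (r v m u n : ℕ) : Fm r v m u n =
    if n.Coprime m ∧ (m : ℤ) ∣ 4 * n - ((u:ℤ) ^ 2 - r * (v:ℤ) ^ 2) then 1 else 0 := by
  unfold Fm
  simp only [modEq_iff_int]

/-- number of roots of a quadratic congruence modulo an odd prime -/
lemma card_roots {p : ℕ} (hp : p.Prime) (hp2 : p ≠ 2) (r v : ℕ) :
    (((range p).filter (fun u : ℕ => (p : ℤ) ∣ (u:ℤ) ^ 2 - r * (v:ℤ) ^ 2)).card : ℤ) =
      (if p ∣ v then 0 else jacobiSym r p) + 1 := by
  classical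
  have : Fact p.Prime := ⟨hp⟩
  have h1 := legendreSym.card_sqrts p hp2 ((r:ℤ) * (v:ℤ) ^ 2)
  have h2 : ((range p).filter (fun u : ℕ => (p : ℤ) ∣ (u:ℤ) ^ 2 - r * (v:ℤ) ^ 2)).card =
      {x : ZMod p | x ^ 2 = (((r:ℤ) * (v:ℤ) ^ 2 : ℤ) : ZMod p)}.toFinset.card := by
    apply Finset.card_nbij' (fun u : ℕ => (u : ZMod p)) (fun x : ZMod p => x.val)
    · intro u hu
      simp only [coe_filter, mem_range, Set.mem_ofPred_eq] at hu
      simp only [Set.coe_toFinset, Set.mem_ofPred_eq]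
      have h3 := (ZMod.intCast_zmod_eq_zero_iff_dvd _ p).2 hu.2
      push_cast at h3 ⊢
      exact sub_eq_zero.1 h3
    · intro x hx
      simp only [Set.coe_toFinset, Set.mem_ofPred_eq] at hx
      simp only [coe_filter, mem_range, Set.mem_ofPred_eq]
      refine ⟨ZMod.val_lt x, ?_⟩
      rw [← ZMod.intCast_zmod_eq_zero_iff_dvd]
      push_cast at hx ⊢
      rw [ZMod.natCast_zmod_val, hx, sub_self]
    · intro u hu
      simp only [coe_filter, mem_range, Set.mem_ofPred_eq] at hu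
      exact ZMod.val_cast_of_lt hu.1
    · intro x _
      exact ZMod.natCast_zmod_val x
  rw [h2, h1]
  congr 1
  rw [legendreSym.mul, jacobiSym.legendreSym.to_jacobiSym, jacobiSym.legendreSym.to_jacobiSym]
  split_ifs with h
  · have h3 : jacobiSym ((v:ℤ) ^ 2) p = 0 := by
      rw [← jacobiSym.legendreSym.to_jacobiSym, legendreSym.eq_zero_iff]
      push_cast
      rw [(ZMod.natCast_eq_zero_iff v p).2 h]
      ring
    rw [h3, mul_zero]
  · have h3 : jacobiSym ((v:ℤ) ^ 2) p = 1 := by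
      rw [← jacobiSym.legendreSym.to_jacobiSym]; refine legendreSym.sq_one' p ?_
      intro h4
      exact h ((ZMod.natCast_eq_zero_iff v p).1 (by exact_mod_cast h4))
    rw [h3, mul_one]

/-- the local count at an odd prime -/
lemma Nm_odd {p k : ℕ} (hp : p.Prime) (hp2 : p ≠ 2) (hk : 1 ≤ k) (r v : ℕ) :
    Nm r v (p ^ k) = (p:ℝ) ^ (k - 1) * (p - 1 - (if p ∣ v then 0 else (jacobiSym r p : ℝ))) := by
  classical
  have hpk : 0 < p ^ k := pow_pos hp.pos k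
  have hpI : Prime (p : ℤ) := Nat.prime_iff_prime_int.1 hp
  -- inner sums
  have hin : ∀ u : ℕ, ∑ n ∈ range (p ^ k), Fm r v (p ^ k) u n =
      if (p : ℤ) ∣ (u:ℤ) ^ 2 - r * (v:ℤ) ^ 2 then (0:ℝ) else 1 := by
    intro u
    set d : ℤ := (u:ℤ) ^ 2 - r * (v:ℤ) ^ 2 with hd
    have hc : IsCoprime (4 : ℤ) ((p ^ k : ℕ) : ℤ) := by
      push_cast
      apply IsCoprime.pow_right
      have h1 : ¬ (p : ℤ) ∣ 4 := by
        intro h
        have h2 : p ∣ 2 ^ 2 := by exact_mod_cast h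
        exact hp2 ((Nat.prime_dvd_prime_iff_eq hp Nat.prime_two).1 (hp.dvd_of_dvd_pow h2))
      exact ((Prime.coprime_iff_not_dvd hpI).2 h1).symm
    obtain ⟨n0, hn0, huniq⟩ := exists_unique_lin hpk hc d
    have h0 : ((p ^ k : ℕ) : ℤ) ∣ 4 * n0 - d := (huniq n0 hn0).2 rfl
    have hpd : (p : ℤ) ∣ 4 * n0 - d := by
      refine dvd_trans ?_ h0
      push_cast
      exact dvd_pow_self _ (by omega)
    rw [sum_eq_single n0]
    · rw [Fm_int]
      have h1 : n0.Coprime (p ^ k) ↔ ¬ (p : ℤ) ∣ d := by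
        rw [Nat.coprime_pow_right_iff (by omega), Nat.coprime_comm, Nat.Prime.coprime_iff_not_dvd hp, not_iff_not]
        constructor
        · intro h
          have h2 : (p : ℤ) ∣ 4 * n0 := Dvd.dvd.mul_left (by exact_mod_cast h) _
          have := dvd_sub h2 hpd
          simpa using this
        · intro h
          have h2 : (p : ℤ) ∣ 4 * n0 := by
            have := dvd_add hpd h
            simpa using this
          have h3 : p ∣ 4 * n0 := by exact_mod_cast h2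
          rcases (hp.dvd_mul).1 h3 with h4 | h4
          · exact absurd ((Nat.prime_dvd_prime_iff_eq hp Nat.prime_two).1
              (hp.dvd_of_dvd_pow (show p ∣ 2 ^ 2 by simpa using h4))) hp2
          · exact h4
      rw [← hd]
      by_cases h : (p : ℤ) ∣ d
      · rw [if_neg (by rw [h1]; tauto), if_pos h]
      · rw [if_pos ⟨h1.2 h, h0⟩, if_neg h]
    · intro n hn hne
      rw [Fm_int, ← hd, if_neg]
      intro h
      exact hne ((huniq n (mem_range.1 hn)).1 h.2)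
    · intro h
      exact absurd (mem_range.2 hn0) h
  unfold Nm
  rw [sum_congr rfl fun u _ => hin u]
  have hpk2 : p ^ k = p ^ (k - 1) * p := by rw [← pow_succ]; congr 1; omega
  have hper : ∀ u : ℕ, (if (p : ℤ) ∣ (u:ℤ) ^ 2 - r * (v:ℤ) ^ 2 then (0:ℝ) else 1) =
      if (p : ℤ) ∣ ((u % p : ℕ):ℤ) ^ 2 - r * (v:ℤ) ^ 2 then (0:ℝ) else 1 := by
    intro u
    have h1 : (p : ℤ) ∣ (u:ℤ) ^ 2 - ((u % p : ℕ):ℤ) ^ 2 := by
      have h2 : (p : ℤ) ∣ (u:ℤ) - ((u % p : ℕ):ℤ) := Nat.modEq_iff_dvd.1 (Nat.mod_modEq u p)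
      have h3 : (u:ℤ) ^ 2 - ((u % p : ℕ):ℤ) ^ 2 = ((u:ℤ) - ((u % p : ℕ):ℤ)) * ((u:ℤ) + ((u % p : ℕ):ℤ)) := by ring
      rw [h3]; exact Dvd.dvd.mul_right h2 _
    have h4 : (p : ℤ) ∣ (u:ℤ) ^ 2 - r * (v:ℤ) ^ 2 ↔ (p : ℤ) ∣ ((u % p : ℕ):ℤ) ^ 2 - r * (v:ℤ) ^ 2 := by
      constructor
      · intro h
        have := dvd_sub h h1
        rwa [show (u:ℤ) ^ 2 - r * (v:ℤ) ^ 2 - ((u:ℤ) ^ 2 - ((u % p : ℕ):ℤ) ^ 2) =
          ((u % p : ℕ):ℤ) ^ 2 - r * (v:ℤ) ^ 2 by ring] at this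
      · intro h
        have := dvd_add h h1
        rwa [show ((u % p : ℕ):ℤ) ^ 2 - r * (v:ℤ) ^ 2 + ((u:ℤ) ^ 2 - ((u % p : ℕ):ℤ) ^ 2) =
          (u:ℤ) ^ 2 - r * (v:ℤ) ^ 2 by ring] at this
    simp only [h4]
  rw [hpk2, sum_periodic _ hper]
  have h5 := card_roots hp hp2 r v
  have h6 : ∑ u ∈ range p, (if (p : ℤ) ∣ (u:ℤ) ^ 2 - r * (v:ℤ) ^ 2 then (0:ℝ) else 1) =
      (p:ℝ) - ((range p).filter (fun u : ℕ => (p : ℤ) ∣ (u:ℤ) ^ 2 - r * (v:ℤ) ^ 2)).card := by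
    have h7 : ∀ u ∈ range p, (if (p : ℤ) ∣ (u:ℤ) ^ 2 - r * (v:ℤ) ^ 2 then (0:ℝ) else 1) =
        1 - (if (p : ℤ) ∣ (u:ℤ) ^ 2 - r * (v:ℤ) ^ 2 then (1:ℝ) else 0) := by
      intro u _
      split_ifs <;> simp
    rw [sum_congr rfl h7, sum_sub_distrib, sum_const, card_range, nsmul_eq_mul, mul_one, sum_boole]
  rw [h6]
  have h8 : (((range p).filter (fun u : ℕ => (p : ℤ) ∣ (u:ℤ) ^ 2 - r * (v:ℤ) ^ 2)).card : ℝ) =
      (if p ∣ v then 0 else (jacobiSym r p : ℝ)) + 1 := by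
    have := congrArg (fun x : ℤ => (x : ℝ)) h5
    push_cast at this
    rw [this]
  rw [h8]
  push_cast
  ring

/-- the local count at 2 -/
lemma Nm_two {k : ℕ} (hk : 3 ≤ k) (r v : ℕ) :
    Nm r v (2 ^ k) = 4 * (2:ℝ) ^ (k - 3) *
      ∑ u ∈ range 8, (if ((u:ℤ) ^ 2 - r * (v:ℤ) ^ 2) % 8 = 4 then (1:ℝ) else 0) := by
  classical
  have hin : ∀ u : ℕ, ∑ n ∈ range (2 ^ k), Fm r v (2 ^ k) u n =
      if ((u:ℤ) ^ 2 - r * (v:ℤ) ^ 2) % 8 = 4 then (4:ℝ) else 0 := by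
    intro u
    set d : ℤ := (u:ℤ) ^ 2 - r * (v:ℤ) ^ 2 with hd
    have h8 : (8 : ℤ) ∣ ((2 ^ k : ℕ) : ℤ) := by
      push_cast
      exact (show (8:ℤ) = 2 ^ 3 by norm_num) ▸ pow_dvd_pow 2 hk
    split_ifs with h
    · obtain ⟨d', hd'⟩ : ∃ d', d = 4 * d' := ⟨d / 4, by omega⟩
      have hq : 0 < 2 ^ (k - 2) := by positivity
      obtain ⟨n0, hn0, huniq⟩ := exists_unique_lin (c := 1) hq isCoprime_one_left d'
      have hk4 : 2 ^ k = 4 * 2 ^ (k - 2) := by
        rw [show (4:ℕ) = 2 ^ 2 by norm_num, ← pow_add]; congr 1; omega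
      have hkey : ∀ n : ℕ, Fm r v (2 ^ k) u n = if ((2 ^ (k - 2) : ℕ) : ℤ) ∣ 1 * n - d' then (1:ℝ) else 0 := by
        intro n
        rw [Fm_int, ← hd, hd', hk4]
        have h1 : ((4 * 2 ^ (k - 2) : ℕ) : ℤ) ∣ 4 * n - 4 * d' ↔ ((2 ^ (k - 2) : ℕ) : ℤ) ∣ 1 * n - d' := by
          push_cast
          rw [← mul_sub, one_mul]
          exact mul_dvd_mul_iff_left (by norm_num)
        simp only [h1]
        have h2 : ((2 ^ (k - 2) : ℕ) : ℤ) ∣ 1 * n - d' → n.Coprime (4 * 2 ^ (k - 2)) := by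
          intro h3
          have h4 : (2:ℤ) ∣ 1 * n - d' := by
            refine dvd_trans ?_ h3
            push_cast
            exact dvd_pow_self _ (by omega)
          have h5 : ¬ 2 ∣ n := by omega
          rw [← hk4]
          exact Nat.Coprime.pow_right _ ((Nat.Prime.coprime_iff_not_dvd Nat.prime_two).2 h5).symm
        by_cases h3 : ((2 ^ (k - 2) : ℕ) : ℤ) ∣ 1 * n - d'
        · rw [if_pos ⟨h2 h3, h3⟩, if_pos h3]
        · rw [if_neg (fun h => h3 h.2), if_neg h3]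
      rw [sum_congr rfl fun n _ => hkey n, hk4, sum_periodic]
      · rw [sum_eq_single n0]
        · rw [if_pos ((huniq n0 hn0).2 rfl)]; norm_num
        · intro n hn hne
          rw [if_neg]
          intro h3
          exact hne ((huniq n (mem_range.1 hn)).1 h3)
        · intro h3
          exact absurd (mem_range.2 hn0) h3
      · intro n
        have h1 : ((2 ^ (k - 2) : ℕ) : ℤ) ∣ (n:ℤ) - ((n % 2 ^ (k - 2) : ℕ):ℤ) :=
          Nat.modEq_iff_dvd.1 (Nat.mod_modEq n _)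
        have h2 : ((2 ^ (k - 2) : ℕ) : ℤ) ∣ 1 * n - d' ↔
            ((2 ^ (k - 2) : ℕ) : ℤ) ∣ 1 * ((n % 2 ^ (k - 2) : ℕ):ℤ) - d' := by
          constructor
          · intro h3
            have := dvd_sub h3 h1
            rwa [show 1 * (n:ℤ) - d' - ((n:ℤ) - ((n % 2 ^ (k - 2) : ℕ):ℤ)) =
              1 * ((n % 2 ^ (k - 2) : ℕ):ℤ) - d' by ring] at this
          · intro h3
            have := dvd_add h3 h1
            rwa [show 1 * ((n % 2 ^ (k - 2) : ℕ):ℤ) - d' + ((n:ℤ) - ((n % 2 ^ (k - 2) : ℕ):ℤ)) =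
              1 * (n:ℤ) - d' by ring] at this
        simp only [h2]
    · refine sum_eq_zero fun n _ => ?_
      rw [Fm_int, ← hd, if_neg]
      rintro ⟨h1, h2⟩
      have h3 : ¬ 2 ∣ n := by
        intro h4
        have := Nat.eq_one_of_dvd_coprimes h1 h4 (dvd_pow_self 2 (by omega))
        omega
      have h4 : (8:ℤ) ∣ 4 * n - d := h8.trans h2
      omega
  unfold Nm
  rw [sum_congr rfl fun u _ => hin u]
  have hk8 : 2 ^ k = 2 ^ (k - 3) * 8 := by
    rw [show (8:ℕ) = 2 ^ 3 by norm_num, ← pow_add]; congr 1; omega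
  rw [hk8, sum_periodic]
  · have h4 : ∀ u ∈ range 8, (if ((u:ℤ) ^ 2 - r * (v:ℤ) ^ 2) % 8 = 4 then (4:ℝ) else 0) =
        4 * (if ((u:ℤ) ^ 2 - r * (v:ℤ) ^ 2) % 8 = 4 then (1:ℝ) else 0) := by
      intro u _
      split_ifs <;> norm_num
    rw [sum_congr rfl h4, ← mul_sum]
    push_cast
    ring
  · intro u
    have h1 : (8:ℤ) ∣ (u:ℤ) ^ 2 - ((u % 8 : ℕ):ℤ) ^ 2 := by
      have h2 : (8 : ℤ) ∣ (u:ℤ) - ((u % 8 : ℕ):ℤ) := by omega
      have h3 : (u:ℤ) ^ 2 - ((u % 8 : ℕ):ℤ) ^ 2 = ((u:ℤ) - ((u % 8 : ℕ):ℤ)) * ((u:ℤ) + ((u % 8 : ℕ):ℤ)) := by ring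
      rw [h3]; exact Dvd.dvd.mul_right h2 _
    have h4 : ((u:ℤ) ^ 2 - r * (v:ℤ) ^ 2) % 8 = (((u % 8 : ℕ):ℤ) ^ 2 - r * (v:ℤ) ^ 2) % 8 := by
      generalize (u:ℤ) ^ 2 = A at *
      generalize ((u % 8 : ℕ):ℤ) ^ 2 = B at *
      generalize (r:ℤ) * (v:ℤ) ^ 2 = C at *
      omega
    simp only [h4]

/-- the finite check modulo 8 -/
lemma two_count {r v : ℕ} (hr : r % 4 = 1 ∨ r % 16 = 8 ∨ r % 16 = 12) :
    ∑ u ∈ range 8, (if ((u:ℤ) ^ 2 - r * (v:ℤ) ^ 2) % 8 = 4 then (1:ℝ) else 0) =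
      2 * (1 - if 2 ∣ v then 0 else (chi2 r : ℝ)) := by
  have key : ∀ a : ℕ, a < 8 → ∀ b : ℕ, b < 8 → (a % 4 = 1 ∨ a = 0 ∨ a = 4) →
      ∑ u ∈ range 8, (if ((u:ℤ) ^ 2 - a * (b:ℤ) ^ 2) % 8 = 4 then (1:ℤ) else 0) =
        2 * (1 - if 2 ∣ b then 0 else (chi2 a : ℤ)) := by
    unfold chi2
    decide
  have h1 : ∀ u : ℕ, ((u:ℤ) ^ 2 - r * (v:ℤ) ^ 2) % 8 = ((u:ℤ) ^ 2 - ((r % 8 : ℕ):ℤ) * ((v % 8 : ℕ):ℤ) ^ 2) % 8 := by
    intro u
    apply Int.emod_eq_emod_iff_emod_sub_eq_zero.2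
    apply Int.emod_eq_zero_of_dvd
    have h2 : (8:ℤ) ∣ (r:ℤ) - ((r % 8 : ℕ):ℤ) := by omega
    have h3 : (8:ℤ) ∣ (v:ℤ) - ((v % 8 : ℕ):ℤ) := by omega
    have h4 : ((u:ℤ) ^ 2 - r * (v:ℤ) ^ 2) - ((u:ℤ) ^ 2 - ((r % 8 : ℕ):ℤ) * ((v % 8 : ℕ):ℤ) ^ 2) =
        -(((r:ℤ) - ((r % 8 : ℕ):ℤ)) * (v:ℤ) ^ 2) -
          (((v:ℤ) - ((v % 8 : ℕ):ℤ)) * (((r % 8 : ℕ):ℤ) * ((v:ℤ) + ((v % 8 : ℕ):ℤ)))) := by ring
    rw [h4]
    exact dvd_sub (dvd_neg.2 (Dvd.dvd.mul_right h2 _)) (Dvd.dvd.mul_right h3 _)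
  have h3 := key (r % 8) (Nat.mod_lt _ (by norm_num)) (v % 8) (Nat.mod_lt _ (by norm_num)) (by omega)
  have h4 : chi2 ((r % 8 : ℕ) : ℤ) = chi2 r := by
    unfold chi2
    have : (((r % 8 : ℕ) : ℤ)) % 8 = (r:ℤ) % 8 := by omega
    rw [this]
  have h5 : 2 ∣ v % 8 ↔ 2 ∣ v := by omega
  rw [h4] at h3
  simp only [h5] at h3
  simp only [h1]
  have h6 := congrArg (fun x : ℤ => (x : ℝ)) h3
  push_cast at h6 ⊢
  rw [h6]

/-- the predicted value -/
noncomputable def Gm (r v m : ℕ) : ℝ :=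
  (Nat.totient m : ℝ) * (if 2 ∣ m then 2 else 1) *
    ∏ l ∈ m.primeFactors, (1 - if l ∣ v then 0 else (chi r l : ℝ) / ((l : ℝ) - 1))

lemma chi_odd (D : ℤ) {l : ℕ} (hl : l.Prime) (h2 : l ≠ 2) : chi D l = jacobiSym D l := by
  unfold chi
  have h3 : padicValNat 2 l = 0 := by
    apply padicValNat.eq_zero_of_not_dvd
    intro h
    exact h2 ((Nat.prime_dvd_prime_iff_eq Nat.prime_two hl).1 h).symm
  rw [h3]; simp

lemma chi_two (D : ℤ) : chi D 2 = chi2 D := by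
  unfold chi
  have h3 : padicValNat 2 2 = 1 := padicValNat_self
  rw [h3]; simp

lemma Nm_eq {r v : ℕ} (hr : r % 4 = 1 ∨ r % 16 = 8 ∨ r % 16 = 12) (m : ℕ) :
    1 ≤ m → (2 ∣ m → 8 ∣ m) → Nm r v m = Gm r v m := by
  induction m using Nat.recOnPosPrimePosCoprime with
  | prime_pow p k hp hk =>
    intro _ h8
    unfold Gm
    rw [Nat.primeFactors_prime_pow hk.ne' hp, prod_singleton, Nat.totient_prime_pow hp hk]
    by_cases hp2 : p = 2
    · subst hp2
      have hk3 : 3 ≤ k := by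
        have h := h8 (dvd_pow_self 2 hk.ne')
        rw [show (8:ℕ) = 2 ^ 3 by norm_num] at h
        exact (Nat.pow_dvd_pow_iff_le_right (by norm_num)).1 h
      rw [Nm_two hk3, two_count hr, if_pos (dvd_pow_self 2 hk.ne'), chi_two]
      obtain ⟨j, rfl⟩ : ∃ j, k = j + 3 := ⟨k - 3, by omega⟩
      have e1 : j + 3 - 3 = j := by omega
      have e2 : j + 3 - 1 = j + 2 := by omega
      rw [e1, e2]
      push_cast
      split_ifs
      · ring
      · norm_num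
        ring
    · have h2 : ¬ 2 ∣ p ^ k := by
        intro h
        exact hp2 ((Nat.prime_dvd_prime_iff_eq Nat.prime_two hp).1
          (Nat.prime_two.dvd_of_dvd_pow h)).symm
      rw [Nm_odd hp hp2 hk, if_neg h2, chi_odd _ hp hp2]
      have hp3 : (1:ℝ) ≤ (p:ℝ) - 1 := by
        have : (2:ℝ) ≤ p := by exact_mod_cast hp.two_le
        linarith
      have hp1 : 1 ≤ p := hp.one_le
      push_cast [Nat.cast_sub hp1]
      split_ifs
      · ring
      · have : (p:ℝ) - 1 ≠ 0 := by linarith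
        field_simp
  | zero => intro h; omega
  | one =>
    intro _ _
    unfold Nm Gm Fm
    simp [Nat.ModEq, Nat.mod_one]
  | coprime a b ha hb hab iha ihb =>
    intro _ h8
    have ha8 : 2 ∣ a → 8 ∣ a := by
      intro h
      have h1 := h8 (Dvd.dvd.mul_right h b)
      have h2 : Nat.Coprime 8 b := by
        have : Nat.Coprime 2 b := Nat.Coprime.coprime_dvd_left h hab
        exact (show (8:ℕ) = 2 ^ 3 by norm_num) ▸ Nat.Coprime.pow_left 3 this
      exact h2.dvd_of_dvd_mul_right h1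
    have hb8 : 2 ∣ b → 8 ∣ b := by
      intro h
      have h1 := h8 (Dvd.dvd.mul_left h a)
      have h2 : Nat.Coprime 8 a := by
        have : Nat.Coprime 2 a := Nat.Coprime.coprime_dvd_left h hab.symm
        exact (show (8:ℕ) = 2 ^ 3 by norm_num) ▸ Nat.Coprime.pow_left 3 this
      exact h2.dvd_of_dvd_mul_left h1
    rw [Nm_mul hab (by omega) (by omega), iha (by omega) ha8, ihb (by omega) hb8]
    unfold Gm
    rw [hab.primeFactors_mul, prod_union hab.disjoint_primeFactors, Nat.totient_mul hab]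
    have h3 : (if 2 ∣ a * b then (2:ℝ) else 1) = (if 2 ∣ a then 2 else 1) * (if 2 ∣ b then 2 else 1) := by
      by_cases h2a : 2 ∣ a
      · have h2b : ¬ 2 ∣ b := by
          intro h
          have := Nat.dvd_gcd h2a h
          rw [hab.gcd_eq_one] at this
          omega
        rw [if_pos h2a, if_neg h2b, if_pos (Dvd.dvd.mul_right h2a b)]
        norm_num
      · by_cases h2b : 2 ∣ b
        · rw [if_neg h2a, if_pos h2b, if_pos (Dvd.dvd.mul_left h2b a)]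
          norm_num
        · have h2 : ¬ 2 ∣ a * b := by
            intro h
            rcases (Nat.prime_two.dvd_mul).1 h with h | h
            · exact h2a h
            · exact h2b h
          rw [if_neg h2a, if_neg h2b, if_neg h2]
          norm_num
    rw [h3]
    push_cast
    ring

lemma primeFactors_M {z v : ℕ} (hz : 2 ≤ z) (hv : 1 ≤ v) :
    (Qz z * (qpart z v) ^ 2).primeFactors = (Finset.Icc 2 z).filter Nat.Prime := by
  have hQ : Qz z ≠ 0 := by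
    unfold Qz
    refine mul_ne_zero (by norm_num) (prod_ne_zero_iff.2 fun l hl => ?_)
    exact pow_ne_zero _ (mem_filter.1 hl).2.ne_zero
  have hw : (qpart z v) ^ 2 ≠ 0 := pow_ne_zero _ (by have := qpart_pos z hv; omega)
  ext p
  rw [Nat.mem_primeFactors, mem_filter, mem_Icc]
  constructor
  · rintro ⟨hp, hd, -⟩
    have hpQ : p ∣ Qz z := by
      rcases (hp.dvd_mul).1 hd with h | h
      · exact h
      · exact qpart_prime hp (hp.dvd_of_dvd_pow h)
    rcases prime_dvd_Qz hp hpQ with h | h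
    · exact ⟨⟨by omega, by omega⟩, hp⟩
    · have := mem_filter.1 h
      rw [mem_Icc] at this
      exact ⟨⟨by omega, this.1.2⟩, hp⟩
  · rintro ⟨⟨h1, h2⟩, hp⟩
    refine ⟨hp, Dvd.dvd.mul_right ?_ _, mul_ne_zero hQ hw⟩
    unfold Qz
    by_cases h3 : p = 2
    · rw [h3]; exact Dvd.dvd.mul_right (by norm_num) _
    · refine Dvd.dvd.mul_left ?_ _
      refine dvd_trans (dvd_pow_self p two_ne_zero) (dvd_prod_of_mem (fun l => l ^ 2) ?_)
      rw [mem_filter, mem_Icc]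
      exact ⟨⟨by omega, h2⟩, hp⟩

lemma coprime_M {z v : ℕ} (hv : 1 ≤ v) (n : ℕ) :
    n.Coprime (Qz z * (qpart z v) ^ 2) ↔ n.Coprime (Qz z) := by
  constructor
  · exact fun h => Nat.Coprime.coprime_mul_right_right h
  · intro h
    refine Nat.Coprime.mul_right h (Nat.Coprime.pow_right 2 ?_)
    refine Nat.coprime_of_dvd fun p hp h1 h2 => ?_
    exact hp.one_lt.ne' (Nat.eq_one_of_dvd_coprimes h h1 (qpart_prime hp h2))

/-- P_TB6a. -/
theorem T_TB6a : P_TB6a := by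
  classical
  intro z r v hz hr hv
  set M := Qz z * (qpart z v) ^ 2 with hM
  have h16 : 16 ∣ Qz z := by unfold Qz; exact dvd_mul_right _ _
  have hM16 : 16 ∣ M := Dvd.dvd.mul_right h16 _
  have hM0 : 1 ≤ M := by
    have h1 : 0 < Qz z := by
      unfold Qz
      refine mul_pos (by norm_num) (prod_pos fun l hl => ?_)
      exact pow_pos (mem_filter.1 hl).2.pos _
    have h2 : 0 < (qpart z v) ^ 2 := pow_pos (qpart_pos z hv) 2
    exact Nat.mul_pos h1 h2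
  have h1 : ∑ n ∈ (range M).filter (fun n => n.Coprime (Qz z)), (rhoQ z r n v : ℝ) = Nm r v M := by
    unfold Nm
    rw [sum_comm, sum_filter]
    refine sum_congr rfl fun n _ => ?_
    unfold Fm rhoQ
    rw [← hM]
    by_cases hc : n.Coprime (Qz z)
    · have hc2 := (coprime_M hv n).2 hc
      rw [← hM] at hc2
      rw [if_pos hc, card_filter]
      push_cast
      refine sum_congr rfl fun u _ => ?_
      by_cases h : u ^ 2 ≡ 4 * n + r * v ^ 2 [MOD M]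
      · rw [if_pos h, if_pos ⟨hc2, h⟩]
      · rw [if_neg h, if_neg (fun h' => h h'.2)]
    · rw [if_neg hc]
      symm
      refine sum_eq_zero fun u _ => ?_
      rw [if_neg]
      intro h
      exact hc ((coprime_M hv n).1 h.1)
  rw [h1, Nm_eq hr.2.1 M hM0 (fun _ => dvd_trans (by norm_num) hM16)]
  unfold Gm rbar
  rw [if_pos (dvd_trans (by norm_num) hM16), hM, primeFactors_M hz hv]
  ring

end Run7.h834.CG
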