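import Pool.Agent.H38R2.CG2.Stubs
import Pool.Agent.Run7.h834.CG.TB6a
import Mathlib.NumberTheory.DirichletCharacter.Orthogonality

/-! # TD: expansion of rhoQ in characters -/

set_option autoImplicit false

namespace Run7.h834.CG

open Finset Pool.Agent.H38R2.CG Pool.Agent.H38R2.CG2

/-- Fourier expansion of a function of the reduced residues. -/
lemma char_expand {M : ℕ} [NeZero M] (g : ℕ → ℝ) (hg : ∀ n, g n = g (n % M)) {n : ℕ} (hn : n.Coprime M) :
    ((g n : ℝ) : ℂ) = ∑ ψ : DirichletCharacter ℂ M,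
      ((1 / (Nat.totient M : ℂ)) * ∑ m ∈ (range M).filter (fun m => m.Coprime M), ((g m : ℝ) : ℂ) * ψ ((m : ZMod M)⁻¹)) *
        ψ (n : ZMod M) := by
  classical
  have hM : 0 < M := Nat.pos_of_ne_zero (NeZero.ne M)
  have htot : (Nat.totient M : ℂ) ≠ 0 := by
    exact_mod_cast (Nat.totient_pos.2 hM).ne'
  have h1 : ∀ ψ : DirichletCharacter ℂ M,
      ((1 / (Nat.totient M : ℂ)) * ∑ m ∈ (range M).filter (fun m => m.Coprime M), ((g m : ℝ) : ℂ) * ψ ((m : ZMod M)⁻¹)) *
        ψ (n : ZMod M) = (1 / (Nat.totient M : ℂ)) * ∑ m ∈ (range M).filter (fun m => m.Coprime M),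
          ((g m : ℝ) : ℂ) * (ψ ((m : ZMod M)⁻¹) * ψ (n : ZMod M)) := by
    intro ψ
    rw [mul_assoc, sum_mul]
    congr 1
    refine sum_congr rfl fun m _ => by ring
  rw [sum_congr rfl fun ψ _ => h1 ψ, ← mul_sum, sum_comm]
  have h2 : ∀ m ∈ (range M).filter (fun m => m.Coprime M),
      ∑ ψ : DirichletCharacter ℂ M, ((g m : ℝ) : ℂ) * (ψ ((m : ZMod M)⁻¹) * ψ (n : ZMod M)) =
        if m = n % M then ((g m : ℝ) : ℂ) * (Nat.totient M : ℂ) else 0 := by
    intro m hm
    rw [mem_filter, mem_range] at hm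
    have hu : IsUnit (m : ZMod M) := (ZMod.isUnit_iff_coprime m M).2 hm.2
    rw [← mul_sum, DirichletCharacter.sum_char_inv_mul_char_eq ℂ hu (n : ZMod M)]
    have h3 : (m : ZMod M) = (n : ZMod M) ↔ m = n % M := by
      rw [ZMod.natCast_eq_natCast_iff]
      unfold Nat.ModEq
      rw [Nat.mod_eq_of_lt hm.1]
    by_cases h : m = n % M
    · rw [if_pos (h3.2 h), if_pos h]
    · rw [if_neg (fun h' => h (h3.1 h')), if_neg h, mul_zero]
  rw [sum_congr rfl h2, sum_ite_eq' , if_pos, hg n]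
  · field_simp
  · rw [mem_filter, mem_range]
    refine ⟨Nat.mod_lt _ hM, ?_⟩
    unfold Nat.Coprime at hn ⊢
    rw [← Nat.gcd_rec, Nat.gcd_comm]
    exact hn

lemma rhoQ_mod (z r n v : ℕ) : rhoQ z r n v = rhoQ z r (n % (Qz z * (qpart z v) ^ 2)) v := by
  unfold rhoQ
  congr 1
  refine filter_congr fun u _ => ?_
  have h : 4 * (n % (Qz z * (qpart z v) ^ 2)) + r * v ^ 2 ≡ 4 * n + r * v ^ 2 [MOD (Qz z * (qpart z v) ^ 2)] :=
    ((Nat.mod_modEq n _).mul_left 4).add_right _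
  exact ⟨fun h1 => h1.trans h.symm, fun h1 => h1.trans h⟩

/-- P2_TD. -/
theorem T2_TD : P2_TD := by
  classical
  intro z r v f X k a l t hz hr hv hP
  set M := Qz z * (qpart z v) ^ 2 with hM
  have hQ0 : 0 < Qz z := by
    unfold Qz
    refine mul_pos (by norm_num) (prod_pos fun l hl => ?_)
    exact pow_pos (mem_filter.1 hl).2.pos _
  have hM0 : 0 < M := mul_pos hQ0 (pow_pos (qpart_pos z hv) 2)
  haveI : NeZero M := ⟨hM0.ne'⟩
  have htot : (0:ℝ) < (Nat.totient M : ℝ) := by exact_mod_cast Nat.totient_pos.2 hM0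
  set A : DirichletCharacter ℂ M → ℂ := fun ψ => (1 / (Nat.totient M : ℂ)) *
    ∑ m ∈ (range M).filter (fun m => m.Coprime M), (((rhoQ z r m v : ℝ) : ℝ) : ℂ) * ψ ((m : ZMod M)⁻¹) with hA
  set P := (PA a X).powersetCard k with hPdef
  set S : DirichletCharacter ℂ M → ℂ := fun ψ => ∑ s ∈ P, ∑ t' ∈ P,
    ψ (prodS s : ZMod M) * ((jacobiSym (prodS s : ℤ) f : ℤ) : ℂ) *
        (ψ (prodS t' : ZMod M) * ((jacobiSym (prodS t' : ℤ) f : ℤ) : ℂ)) *
        ((fej (l * (Real.log (prodS s) + Real.log (prodS t') - t)) : ℝ) : ℂ) with hS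
  have hcard : ((range M).filter (fun m => m.Coprime M)).card = Nat.totient M := by
    rw [Nat.totient_eq_card_coprime]
    congr 1
    exact filter_congr fun m _ => Nat.coprime_comm
  -- primes
  have hsp : ∀ s ∈ P, (∀ p ∈ s, p.Prime ∧ ¬ p ∣ Qz z) ∧ prodS s ≠ 0 ∧ (prodS s).Coprime M := by
    intro s hs
    have hsub : s ⊆ PA a X := (mem_powersetCard.1 hs).1
    have h1 : ∀ p ∈ s, p.Prime ∧ ¬ p ∣ Qz z := fun p hp =>
      ⟨by
        have := hsub hp
        unfold PA PP at this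
        exact (mem_filter.1 this).2, hP p (hsub hp)⟩
    refine ⟨h1, ?_, ?_⟩
    · unfold prodS
      exact prod_ne_zero_iff.2 fun p hp => (h1 p hp).1.ne_zero
    · rw [hM, coprime_M hv]
      unfold prodS
      exact Nat.Coprime.prod_left fun p hp => ((h1 p hp).1.coprime_iff_not_dvd).2 (h1 p hp).2
  -- bound of the coefficients
  have hAb : ∀ ψ, ‖A ψ‖ ≤ (Qz z * 8 * 2 ^ z : ℝ) := by
    intro ψ
    rw [hA]
    simp only
    rw [norm_mul]
    have h1 : ‖(1 / (Nat.totient M : ℂ))‖ = 1 / (Nat.totient M : ℝ) := by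
      rw [norm_div, norm_one, Complex.norm_natCast]
    have h2 : ‖∑ m ∈ (range M).filter (fun m => m.Coprime M), (((rhoQ z r m v : ℝ) : ℝ) : ℂ) * ψ ((m : ZMod M)⁻¹)‖ ≤
        (Nat.totient M : ℝ) * (Qz z * 8 * 2 ^ z : ℝ) := by
      refine (norm_sum_le _ _).trans ?_
      rw [← hcard, ← nsmul_eq_mul, ← sum_const]
      refine sum_le_sum fun m hm => ?_
      rw [norm_mul]
      have h3 : ‖(((rhoQ z r m v : ℝ) : ℝ) : ℂ)‖ ≤ (Qz z * 8 * 2 ^ z : ℝ) := by
        rw [Complex.norm_real, Real.norm_of_nonneg (Nat.cast_nonneg _)]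
        have h4 := T_TB3c z r m v hv ((coprime_M hv m).1 (mem_filter.1 hm).2)
        exact_mod_cast h4
      calc _ ≤ (Qz z * 8 * 2 ^ z : ℝ) * 1 :=
            mul_le_mul h3 (DirichletCharacter.norm_le_one ψ _) (norm_nonneg _) (by positivity)
        _ = _ := mul_one _
    rw [h1]
    calc _ ≤ 1 / (Nat.totient M : ℝ) * ((Nat.totient M : ℝ) * (Qz z * 8 * 2 ^ z : ℝ)) :=
          mul_le_mul_of_nonneg_left h2 (by positivity)
      _ = _ := by field_simp
  -- the coefficient of the trivial character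
  have hA1 : A 1 = ((rbar z r v : ℝ) : ℂ) := by
    have h6 := T_TB6a z r v hz hr hv
    rw [← hM] at h6
    have h7 : ∑ m ∈ (range M).filter (fun m => m.Coprime M), (((rhoQ z r m v : ℝ) : ℝ) : ℂ) *
        (1 : DirichletCharacter ℂ M) ((m : ZMod M)⁻¹) =
        ((∑ n ∈ (range M).filter (fun n => n.Coprime (Qz z)), (rhoQ z r n v : ℝ) : ℝ) : ℂ) := by
      push_cast
      have h8 : (range M).filter (fun m => m.Coprime M) = (range M).filter (fun n => n.Coprime (Qz z)) :=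
        filter_congr fun m _ => coprime_M hv m
      rw [← h8]
      refine sum_congr rfl fun m hm => ?_
      have hu : IsUnit (m : ZMod M) := (ZMod.isUnit_iff_coprime m M).2 (mem_filter.1 hm).2
      have hu2 : IsUnit ((m : ZMod M)⁻¹) := by
        have := ZMod.mul_inv_of_unit _ hu
        exact IsUnit.of_mul_eq_one _ (by rw [mul_comm]; exact this)
      rw [MulChar.one_apply hu2, mul_one]
    rw [hA]
    simp only
    rw [h7, h6]
    push_cast
    have : (Nat.totient M : ℂ) ≠ 0 := by exact_mod_cast htot.ne'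
    field_simp
  -- expansion
  have hmain : (((∑ s ∈ P, ∑ t' ∈ P, (rhoQ z r (prodS s * prodS t') v : ℝ) *
      ((jacobiSym ((prodS s * prodS t' : ℕ) : ℤ) f : ℤ) : ℝ) *
      fej (l * (Real.log (prodS s * prodS t' : ℕ) - t)) : ℝ)) : ℂ) = ∑ ψ, A ψ * S ψ := by
    have hT : ∀ ψ, A ψ * S ψ = ∑ s ∈ P, ∑ t' ∈ P, A ψ * (ψ (prodS s : ZMod M) * ((jacobiSym (prodS s : ℤ) f : ℤ) : ℂ) *
        (ψ (prodS t' : ZMod M) * ((jacobiSym (prodS t' : ℤ) f : ℤ) : ℂ)) *
        ((fej (l * (Real.log (prodS s) + Real.log (prodS t') - t)) : ℝ) : ℂ)) := by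
      intro ψ
      rw [hS]
      simp only [mul_sum]
    symm
    rw [sum_congr rfl fun ψ _ => hT ψ, sum_comm]
    push_cast
    refine sum_congr rfl fun s hs => ?_
    rw [sum_comm]
    refine sum_congr rfl fun t' ht' => ?_
    symm
    obtain ⟨-, hs0, hsc⟩ := hsp s hs
    obtain ⟨-, ht0, htc⟩ := hsp t' ht'
    have h1 := char_expand (M := M) (fun n => (rhoQ z r n v : ℝ)) (fun n => by
      rw [hM, ← rhoQ_mod z r n v]) (Nat.Coprime.mul_left hsc htc)
    push_cast at h1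
    rw [h1, sum_mul, sum_mul]
    refine sum_congr rfl fun ψ _ => ?_
    have h2 : jacobiSym ((prodS s : ℤ) * (prodS t' : ℤ)) f = jacobiSym (prodS s : ℤ) f * jacobiSym (prodS t' : ℤ) f :=
      jacobiSym.mul_left _ _ _
    have h3 : Real.log ((prodS s : ℝ) * (prodS t' : ℝ)) = Real.log (prodS s) + Real.log (prodS t') :=
      Real.log_mul (by exact_mod_cast hs0) (by exact_mod_cast ht0)
    rw [h2, h3, map_mul, hA]
    push_cast
    ring
  have hS1 : f = 1 → S 1 = ((SF a X k ∅ l t : ℝ) : ℂ) := by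
    intro hf
    rw [hS]
    unfold SF
    push_cast
    refine sum_congr rfl fun s hs => sum_congr rfl fun t' ht' => ?_
    obtain ⟨-, hs0, hsc⟩ := hsp s hs
    obtain ⟨-, ht0, htc⟩ := hsp t' ht'
    have h3 : Real.log ((prodS s : ℝ) * (prodS t' : ℝ)) = Real.log (prodS s) + Real.log (prodS t') :=
      Real.log_mul (by exact_mod_cast hs0) (by exact_mod_cast ht0)
    have h4 : (prodS ∅ : ℕ) = 1 := by unfold prodS; simp
    rw [MulChar.one_apply ((ZMod.isUnit_iff_coprime _ M).2 hsc), MulChar.one_apply ((ZMod.isUnit_iff_coprime _ M).2 htc),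
      hf, jacobiSym.one_right, jacobiSym.one_right, h4]
    push_cast
    simp only [one_pow, one_mul, mul_one]
    rw [h3]
  -- conclusion
  have hfin : ∀ x : ℝ, |x| = ‖(x : ℂ)‖ := fun x => by rw [Complex.norm_real, Real.norm_eq_abs]
  rw [hfin, Complex.ofReal_sub, hmain]
  have h5 : (((if f = 1 then rbar z r v * SF a X k ∅ l t else 0 : ℝ)) : ℂ) =
      ∑ ψ, if ψ = 1 ∧ f = 1 then A ψ * S ψ else 0 := by
    by_cases hf : f = 1
    · simp only [hf, and_true, if_true]
      rw [sum_ite_eq' , if_pos (mem_univ _), hA1, hS1 hf]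
      push_cast; rfl
    · simp [hf]
  rw [h5, ← sum_sub_distrib]
  refine (norm_sum_le _ _).trans ?_
  rw [mul_sum]
  refine sum_le_sum fun ψ _ => ?_
  by_cases h : ψ = 1 ∧ f = 1
  · rw [if_pos h, if_pos h, sub_self, norm_zero, mul_zero]
  · rw [if_neg h, if_neg h, sub_zero, norm_mul]
    exact mul_le_mul_of_nonneg_right (hAb ψ) (norm_nonneg _)

end Run7.h834.CG
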