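import Pool.Agent.H38R2.CG.Stubs

/-! # TB6b, TB6c: mean of rbar over v, periodic weights against an antitone function -/

set_option autoImplicit false

namespace Run7.h834.CG

open Finset Pool.Agent.H38R2.CG

/-- CRT for sums of products of periodic functions. -/
lemma crt_sum {R : Type*} [CommRing R] {M l : ℕ} (hc : M.Coprime l) (hM : 0 < M) (hl : 0 < l) (f g : ℕ → R)
    (hf : ∀ v, f v = f (v % M)) (hg : ∀ v, g v = g (v % l)) :
    ∑ v ∈ range (M * l), f v * g v = (∑ a ∈ range M, f a) * ∑ b ∈ range l, g b := by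
  classical
  have hinj : Set.InjOn (fun v : ℕ => (v % M, v % l)) (range (M * l) : Set ℕ) := by
    intro u hu w hw huw
    simp only [coe_range, Set.mem_Iio] at hu hw
    simp only [Prod.mk.injEq] at huw
    have h1 : u ≡ w [MOD M * l] := (Nat.modEq_and_modEq_iff_modEq_mul hc).1 ⟨huw.1, huw.2⟩
    exact Nat.ModEq.eq_of_lt_of_lt h1 hu hw
  have himg : (range (M * l)).image (fun v : ℕ => (v % M, v % l)) = range M ×ˢ range l := by
    apply Finset.eq_of_subset_of_card_le
    · intro x hx
      obtain ⟨v, -, rfl⟩ := mem_image.1 hx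
      rw [mem_product, mem_range, mem_range]
      exact ⟨Nat.mod_lt _ hM, Nat.mod_lt _ hl⟩
    · rw [card_image_of_injOn hinj, card_product, card_range, card_range, card_range]
  rw [sum_mul_sum, ← sum_product', ← himg, sum_image hinj]
  refine sum_congr rfl fun v _ => ?_
  rw [hf v, hg v]

lemma crt_prod {R : Type*} [CommRing R] (S : Finset ℕ) (hS : ∀ l ∈ S, l.Prime) (g : ℕ → ℕ → R)
    (hg : ∀ l v, g l v = g l (v % l)) :
    ∑ v ∈ range (∏ l ∈ S, l), ∏ l ∈ S, g l v = ∏ l ∈ S, ∑ a ∈ range l, g l a := by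
  classical
  induction S using Finset.induction_on with
  | empty => simp
  | insert p S hp ih =>
    have hS' : ∀ l ∈ S, l.Prime := fun l hl => hS l (mem_insert_of_mem hl)
    have hpp := hS p (mem_insert_self _ _)
    rw [prod_insert hp, prod_insert hp, ← ih hS']
    have hc : p.Coprime (∏ l ∈ S, l) := by
      refine Nat.Coprime.prod_right fun l hl => ?_
      exact (Nat.coprime_primes hpp (hS' l hl)).2 (fun h => hp (h ▸ hl))
    rw [← crt_sum hc hpp.pos (prod_pos fun l hl => (hS' l hl).pos) (g p) (fun v => ∏ l ∈ S, g l v) (hg p)]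
    · refine sum_congr rfl fun v _ => ?_
      rw [prod_insert hp]
    · intro v
      refine prod_congr rfl fun l hl => ?_
      rw [hg l v, hg l (v % ∏ l ∈ S, l), Nat.mod_mod_of_dvd _ (dvd_prod_of_mem _ hl)]

lemma chi_abs (D : ℤ) {l : ℕ} (hl : l.Prime) : |(chi D l : ℝ)| ≤ 1 := by
  have h1 : |chi D l| ≤ 1 := by
    unfold chi
    rw [abs_mul, abs_pow]
    have h2 : |chi2 D| ≤ 1 := by unfold chi2; split_ifs <;> simp
    have h3 : |jacobiSym D (l / 2 ^ padicValNat 2 l)| ≤ 1 := by
      rcases jacobiSym.trichotomy D (l / 2 ^ padicValNat 2 l) with h | h | h <;> rw [h] <;> simp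
    have h4 : |chi2 D| ^ padicValNat 2 l ≤ 1 := pow_le_one₀ (abs_nonneg _) h2
    calc _ ≤ 1 * 1 := mul_le_mul h4 h3 (abs_nonneg _) zero_le_one
      _ = 1 := one_mul 1
  exact_mod_cast h1

/-- P_TB6b. -/
theorem T_TB6b : P_TB6b := by
  classical
  intro z r _ _
  have hpr : ∀ l ∈ (Finset.Icc 2 z).filter Nat.Prime, l.Prime := fun l hl => (mem_filter.1 hl).2
  refine ⟨fun v => ?_, fun v => ?_, ?_⟩
  · unfold rbar
    refine mul_nonneg (by norm_num) (prod_nonneg fun l hl => ?_)
    split_ifs with h
    · norm_num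
    · have hl := hpr l hl
      have h1 := chi_abs (r : ℤ) hl
      have h2 : (1:ℝ) ≤ (l:ℝ) - 1 := by
        have : (2:ℝ) ≤ l := by exact_mod_cast hl.two_le
        linarith
      have h3 : (chi r l : ℝ) / ((l:ℝ) - 1) ≤ 1 := by
        rw [div_le_one (by linarith)]
        linarith [(abs_le.1 h1).2]
      linarith
  · unfold rbar
    congr 1
    refine prod_congr rfl fun l hl => ?_
    have h : l ∣ v + ∏ l ∈ (Finset.Icc 2 z).filter Nat.Prime, l ↔ l ∣ v :=
      (Nat.dvd_add_iff_left (dvd_prod_of_mem _ hl)).symm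
    simp only [h]
  · unfold rbar PiR
    rw [← mul_sum, crt_prod _ hpr (fun l v => (1 - if l ∣ v then 0 else (chi r l : ℝ) / ((l : ℝ) - 1)))]
    · rw [mul_assoc]
      congr 1
      rw [Nat.cast_prod, ← prod_mul_distrib]
      refine prod_congr rfl fun l hl => ?_
      have hlp := hpr l hl
      have hl0 : 0 < l := hlp.pos
      have hl1 : (1:ℝ) ≤ (l:ℝ) - 1 := by
        have : (2:ℝ) ≤ l := by exact_mod_cast hlp.two_le
        linarith
      have hl2 : (0:ℝ) < l := by exact_mod_cast hl0
      obtain ⟨m, rfl⟩ : ∃ m, l = m + 1 := ⟨l - 1, by omega⟩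
      rw [sum_range_succ']
      have h1 : ∀ a ∈ range m, (1 - if (m + 1) ∣ (a + 1) then (0:ℝ) else (chi r (m + 1) : ℝ) / (((m + 1 : ℕ) : ℝ) - 1))
          = 1 - (chi r (m + 1) : ℝ) / (((m + 1 : ℕ) : ℝ) - 1) := by
        intro a ha
        rw [if_neg]
        intro h
        have := Nat.le_of_dvd (by omega) h
        rw [mem_range] at ha
        omega
      rw [sum_congr rfl h1, sum_const, card_range, nsmul_eq_mul, if_pos (dvd_zero _)]
      have h2 : (((m + 1 : ℕ) : ℝ) - 1) = (m:ℝ) := by push_cast; ring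
      rw [h2] at hl1 ⊢
      have hm0 : (m:ℝ) ≠ 0 := by positivity
      have hm1 : (((m + 1 : ℕ) : ℝ)) ≠ 0 := by positivity
      field_simp
      push_cast
      ring
    · intro l v
      have : l ∣ v % l ↔ l ∣ v := by
        constructor
        · intro h
          exact (Nat.dvd_mod_iff (dvd_refl l)).1 h
        · intro h
          exact (Nat.dvd_mod_iff (dvd_refl l)).2 h
      simp only [this]

/-- P_TB6c. -/
theorem T_TB6c : P_TB6c := by
  intro q h F I a hq hh hper hsum hF hF0 hI V
  have hq0 : (0:ℝ) < q := by exact_mod_cast hq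
  have ha : 0 ≤ a := by
    have h1 : 0 ≤ a * q := by rw [← hsum]; exact sum_nonneg fun v _ => hh v
    exact nonneg_of_mul_nonneg_left h1 hq0
  have hper2 : ∀ (j i : ℕ), h (j * q + i) = h i := by
    intro j
    induction j with
    | zero => intro i; simp
    | succ j ih => intro i; rw [show (j + 1) * q + i = (j * q + i) + q by ring, hper, ih]
  -- blocks
  have hblock : ∀ J : ℕ, ∑ v ∈ range (J * q), h v * F v ≤ ∑ j ∈ range J, a * q * F ((j * q : ℕ) : ℝ) := by
    intro J
    induction J with
    | zero => simp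
    | succ J ih =>
      rw [show (J + 1) * q = J * q + q by ring, sum_range_add, sum_range_succ]
      refine add_le_add ih ?_
      rw [← hsum, sum_mul]
      refine sum_le_sum fun i _ => ?_
      rw [hper2]
      refine mul_le_mul_of_nonneg_left ?_ (hh i)
      apply hF
      · simp only [Set.mem_Ici]; positivity
      · simp only [Set.mem_Ici]; positivity
      · push_cast; linarith [(Nat.cast_nonneg i : (0:ℝ) ≤ i)]
  have hint : ∀ J : ℕ, ∑ j ∈ range J, q * F (((j + 1) * q : ℕ) : ℝ) ≤ ∫ x in (0:ℝ)..((J * q : ℕ) : ℝ), F x := by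
    have hii : ∀ x y : ℝ, 0 ≤ x → 0 ≤ y → IntervalIntegrable F MeasureTheory.volume x y := by
      intro x y hx hy
      apply AntitoneOn.intervalIntegrable
      refine hF.mono ?_
      intro t ht
      rw [Set.mem_uIcc] at ht
      simp only [Set.mem_Ici]
      rcases ht with ht | ht <;> linarith [ht.1]
    intro J
    induction J with
    | zero => simp
    | succ J ih =>
      rw [sum_range_succ]
      rw [← intervalIntegral.integral_add_adjacent_intervals (hii 0 ((J * q : ℕ) : ℝ) le_rfl (by positivity))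
        (hii ((J * q : ℕ) : ℝ) (((J + 1) * q : ℕ) : ℝ) (by positivity) (by positivity))]
      refine add_le_add ih ?_
      have hle : ((J * q : ℕ) : ℝ) ≤ (((J + 1) * q : ℕ) : ℝ) := by push_cast; nlinarith
      have h1 : ∫ x in ((J * q : ℕ) : ℝ)..(((J + 1) * q : ℕ) : ℝ), F (((J + 1) * q : ℕ) : ℝ) =
          q * F (((J + 1) * q : ℕ) : ℝ) := by
        rw [intervalIntegral.integral_const, smul_eq_mul]
        push_cast
        ring
      rw [← h1]
      apply intervalIntegral.integral_mono_on hle intervalIntegrable_const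
        (hii ((J * q : ℕ) : ℝ) (((J + 1) * q : ℕ) : ℝ) (by positivity) (by positivity))
      intro x hx
      apply hF
      · simp only [Set.mem_Ici]
        exact le_trans (by positivity) hx.1
      · simp only [Set.mem_Ici]
        positivity
      · exact hx.2
  calc ∑ v ∈ Finset.Icc 1 V, h v * F v ≤ ∑ v ∈ range ((V + 1) * q), h v * F v := by
        apply sum_le_sum_of_subset_of_nonneg
        · intro v hv
          rw [mem_Icc] at hv
          rw [mem_range]
          nlinarith
        · intro v _ _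
          exact mul_nonneg (hh v) (hF0 _)
    _ ≤ ∑ j ∈ range (V + 1), a * q * F ((j * q : ℕ) : ℝ) := hblock _
    _ = a * (q * F 0 + ∑ j ∈ range V, q * F (((j + 1) * q : ℕ) : ℝ)) := by
        rw [sum_range_succ', mul_add, mul_sum]
        simp only [Nat.zero_mul, Nat.cast_zero]
        rw [add_comm]
        congr 1
        · ring
        · refine sum_congr rfl fun j _ => by ring
    _ ≤ a * (q * F 0 + I) := by
        refine mul_le_mul_of_nonneg_left ?_ ha
        have := (hint V).trans (hI _ (by positivity))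
        linarith

end Run7.h834.CG
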